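import Pool.Agent.Lib.SkF.Defs

/-!
# Module ClA: the Clifford algebra (the case `a = 0`)

`q(x) = χ(f x)` is a quadratic form on `L` (`hf.smul`, `hf.add`: `q(x + y) = q(x) + q(y) + χ([x,y])`, polar form `χ([x,y])`, companion the bilinear map
`(x,y) ↦ χ([x,y])`; `QuadraticMap` structure: `toFun`, `toFun_smul`, `exists_companion'`).  `A = CliffordAlgebra q`, `Y = CliffordAlgebra.ι q`:
`CliffordAlgebra.ι_sq_scalar`, `CliffordAlgebra.ι_mul_ι_add_swap` (`= algebraMap (polar q x y)`), `CliffordAlgebra.adjoin_range_ι`.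
Nontrivial: `CliffordAlgebra.changeForm` with a bilinear form `B` such that `B.toQuadraticMap = 0 - q` (`QuadraticMap.toBilin` of a basis of `L` indexed by `Fin n`, `toQuadraticMap_toBilin`) maps
`1` to `1 ≠ 0` in `CliffordAlgebra 0 = ExteriorAlgebra` (`CliffordAlgebra.changeForm_one`; `ExteriorAlgebra` is nontrivial, an instance).
-/

set_option linter.unusedSectionVars false

namespace Pool.Agent.SkF

open Module

open Pool.Agent.SkS (Rst)

noncomputable section

variable {k L : Type} [Field k] [CharP k 2] [LieRing L] [LieAlgebra k L] [FiniteDimensional k L]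

private def claQ {f : L → L} (hf : Rst k f) (χ : Dual k L) : QuadraticForm k L where
  toFun x := χ (f x)
  toFun_smul a x := by
    rw [hf.smul, map_smul, pow_two]
  exists_companion' := by
    refine ⟨LinearMap.mk₂ k (fun x y => χ ⁅x, y⁆) ?_ ?_ ?_ ?_, ?_⟩
    · intro x x' y
      rw [add_lie, map_add]
    · intro c x y
      rw [smul_lie, map_smul]
    · intro x y y'
      rw [lie_add, map_add]
    · intro c x y
      rw [lie_smul, map_smul]
    · intro x y
      rw [hf.add, map_add, map_add]
      rfl

private lemma claQ_apply {f : L → L} (hf : Rst k f) (χ : Dual k L) (x : L) :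
    claQ hf χ x = χ (f x) := rfl

private lemma cla_nontrivial (Q : QuadraticForm k L) : Nontrivial (CliffordAlgebra Q) := by
  have h : (((0 : QuadraticForm k L) - Q).toBilin (Module.finBasis k L)).toQuadraticMap =
      (0 : QuadraticForm k L) - Q := QuadraticMap.toQuadraticMap_toBilin _ _
  have hn : Nontrivial (CliffordAlgebra (0 : QuadraticForm k L)) :=
    inferInstanceAs (Nontrivial (ExteriorAlgebra k L))
  refine ⟨⟨0, 1, fun h01 => ?_⟩⟩
  have h1 := congrArg (CliffordAlgebra.changeForm h) h01
  rw [map_zero, CliffordAlgebra.changeForm_one] at h1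
  exact zero_ne_one h1

theorem exists_alg {f : L → L} (hf : Rst k f) (χ : Dual k L) :
    ∃ (A : Type) (_ : Ring A) (_ : Algebra k A) (_ : Nontrivial A) (Y : L →ₗ[k] A),
      Sys f χ 0 Y ∧ Algebra.adjoin k (Set.range Y) = ⊤ := by
  refine ⟨CliffordAlgebra (claQ hf χ), inferInstance, inferInstance, cla_nontrivial _,
    CliffordAlgebra.ι (claQ hf χ), ⟨?_, ?_⟩, CliffordAlgebra.adjoin_range_ι⟩
  · intro x
    rw [zero_smul, zero_add, CliffordAlgebra.ι_sq_scalar, claQ_apply]
  · intro x y
    rw [zero_smul, zero_add, CliffordAlgebra.ι_mul_ι_add_swap]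
    congr 1
    unfold QuadraticMap.polar
    rw [claQ_apply, claQ_apply, claQ_apply, hf.add, map_add, map_add]
    ring

end

end Pool.Agent.SkF
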