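import Pool.Agent.Lib.SkF.Defs

/-!
# Module Clb: lower bound for representations of the nondegenerate Clifford algebra

There is `T ∈ L` with `χ[T,y] = χ(y)` for all `y` (the injective map `L → Dual k L`, `x ↦ χ[x,·]` is bijective).  `T` is toral: `χ[f T, y] = χ[T,[T,y]] = χ[T,y]` for all `y`, so `f T = T`
(`hf.lie`, `Nondeg`).  Let `M = ker (ad T)` and `R = range (ad T)`.
`R` is isotropic: for `x, y` with `x = [T,x₁]`, `y = [T,y₁]`: `[T,x] = [f T, x₁] = x`, same for `y`, so `[T,[x,y]] = [x,y] + [x,y] = 0` and `χ[x,y] = χ[T,[x,y]] = 0`.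
So `dim R ≤ n/2` (as in SkM/Geo: an isotropic subspace `C` satisfies `2 dim C ≤ n`), so `r := dim M ≥ n/2`.
For `x, x' ∈ M`: `[T,[x,x']] = 0`, so `χ[x,x'] = 0`; `[T, f x] = [x,[x,T]] = 0` so `χ(f x) = χ[T, f x] = 0`.  So by `hY` (with `a = 0`) `Y x Y x = 0` and
`Y x Y x' + Y x' Y x = 0`, i.e. they commute (characteristic two).
Let `m_1, …, m_r` be a basis of `M`, `y_s ∈ L` with `χ[y_s, m_j] = δ_{sj}` (the map `L → Dual k M`, `y ↦ χ[y,·]|_M` is surjective since `L → Dual k L` is bijective and restriction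
`Dual k L → Dual k M` is surjective).  Apply `prod_ne_zero` (SkM/Prod) with `n = r`, `N_j = Y m_j`, `x_s = Y y_s`, `c s j = δ_{sj}`, `e = 0`, `a = δ`, `π = 1`, and
`two_pow_le`: `2^r ≤ dim V`, so `2^n ≤ 2^(2r) ≤ (dim V)^2`.
-/

set_option linter.unusedSectionVars false

namespace Pool.Agent.SkF

open Module

open Pool.Agent.SkS (Rst Nondeg)

noncomputable section

variable {k L : Type} [Field k] [CharP k 2] [LieRing L] [LieAlgebra k L] [FiniteDimensional k L]

private def PhiM (χ : Dual k L) : L →ₗ[k] Dual k L where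
  toFun := fun x => χ.comp (LieAlgebra.ad k L x : L →ₗ[k] L)
  map_add' := by
    intro x y
    ext z
    show χ ⁅x + y, z⁆ = χ ⁅x, z⁆ + χ ⁅y, z⁆
    rw [add_lie, map_add]
  map_smul' := by
    intro a x
    ext z
    show χ ⁅a • x, z⁆ = a • χ ⁅x, z⁆
    rw [smul_lie, map_smul]

private lemma PhiM_apply (χ : Dual k L) (x y : L) : PhiM χ x y = χ ⁅x, y⁆ := rfl

private lemma PhiM_inj {χ : Dual k L} (hχ : Nondeg χ) : Function.Injective (PhiM χ) := by
  rw [injective_iff_map_eq_zero]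
  intro x hx
  refine hχ x fun y => ?_
  exact congrArg (fun f : Dual k L => f y) hx

private lemma PhiM_surj {χ : Dual k L} (hχ : Nondeg χ) : Function.Surjective (PhiM χ) := by
  have h1 : finrank k L = finrank k (Dual k L) := (Subspace.dual_finrank_eq).symm
  exact (LinearMap.injective_iff_surjective_of_finrank_eq_finrank h1).1 (PhiM_inj hχ)

private lemma iso_le {χ : Dual k L} (hχ : Nondeg χ) (C : Submodule k L)
    (hiso : ∀ a ∈ C, ∀ a' ∈ C, χ ⁅a, a'⁆ = 0) : 2 * finrank k C ≤ finrank k L := by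
  have hle : C.map (PhiM χ) ≤ C.dualAnnihilator := by
    rintro _ ⟨a, ha, rfl⟩
    rw [Submodule.mem_dualAnnihilator]
    intro a' ha'
    exact hiso a ha a' ha'
  have h1 := Submodule.finrank_mono hle
  rw [← (Submodule.equivMapOfInjective (PhiM χ) (PhiM_inj hχ) C).finrank_eq] at h1
  have h2 := Subspace.finrank_add_finrank_dualAnnihilator_eq C
  omega

theorem clb {f : L → L} (hf : Rst k f) (χ : Dual k L) (hχ : Nondeg χ) {V : Type} [AddCommGroup V]
    [Module k V] [FiniteDimensional k V] [Nontrivial V] {Y : L →ₗ[k] End k V}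
    (hY : Sys f χ 0 Y) : 2 ^ finrank k L ≤ finrank k V ^ 2 := by
  have hadd2 : ∀ z : L, z + z = 0 := by
    intro z
    rw [← two_smul k z, CharTwo.two_eq_zero, zero_smul]
  have hE2 : ∀ z : End k V, z + z = 0 := by
    intro z
    rw [← two_smul k z, CharTwo.two_eq_zero, zero_smul]
  obtain ⟨T, hT0⟩ := PhiM_surj hχ χ
  have hT : ∀ y : L, χ ⁅T, y⁆ = χ y := by
    intro y
    have := congrArg (fun g : Dual k L => g y) hT0
    exact this
  have hfT : f T = T := by
    have h1 : f T - T = 0 := by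
      refine hχ _ fun y => ?_
      rw [sub_lie, map_sub, hf.lie, hT, sub_self]
    exact sub_eq_zero.1 h1
  set R : Submodule k L := LinearMap.range (LieAlgebra.ad k L T : L →ₗ[k] L) with hR
  set M : Submodule k L := LinearMap.ker (LieAlgebra.ad k L T : L →ₗ[k] L) with hM
  have hmem : ∀ a ∈ M, ⁅T, a⁆ = 0 := fun a ha => ha
  have hRT : ∀ x ∈ R, ⁅T, x⁆ = x := by
    rintro _ ⟨x1, rfl⟩
    show ⁅T, ⁅T, x1⁆⁆ = ⁅T, x1⁆
    rw [← hf.lie, hfT]
  have hRiso : ∀ x ∈ R, ∀ y ∈ R, χ ⁅x, y⁆ = 0 := by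
    intro x hx y hy
    rw [← hT ⁅x, y⁆, leibniz_lie, hRT x hx, hRT y hy, hadd2, map_zero]
  have hRle := iso_le hχ R hRiso
  have h3 := LinearMap.finrank_range_add_finrank_ker (LieAlgebra.ad k L T : L →ₗ[k] L)
  rw [← hM, ← hR] at h3
  have hMM : ∀ x ∈ M, ∀ x' ∈ M, χ ⁅x, x'⁆ = 0 := by
    intro x hx x' hx'
    rw [← hT ⁅x, x'⁆, leibniz_lie, hmem x hx, hmem x' hx', zero_lie, lie_zero, add_zero, map_zero]
  have hMf : ∀ x ∈ M, χ (f x) = 0 := by
    intro x hx
    rw [← hT (f x)]
    have h4 : ⁅f x, T⁆ = 0 := by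
      rw [hf.lie]
      have h5 : ⁅x, T⁆ = 0 := by rw [← lie_skew, hmem x hx, neg_zero]
      rw [h5, lie_zero]
    rw [← lie_skew, h4, neg_zero, map_zero]
  have hYsq : ∀ x ∈ M, Y x * Y x = 0 := by
    intro x hx
    rw [hY.sq, hMf x hx, map_zero, zero_smul, add_zero]
  have hYcom : ∀ x ∈ M, ∀ x' ∈ M, Y x * Y x' = Y x' * Y x := by
    intro x hx x' hx'
    have h4 := hY.com x x'
    rw [hMM x hx x' hx', map_zero, zero_smul, add_zero] at h4
    have h5 := hE2 (Y x' * Y x)
    exact add_right_cancel (h4.trans h5.symm)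
  set r := finrank k M with hr
  let m : Basis (Fin r) k M := finBasis k M
  have hys : ∀ s : Fin r, ∃ y : L, ∀ j : Fin r, χ ⁅y, (m j : L)⁆ = if s = j then 1 else 0 := by
    intro s
    obtain ⟨g, hg⟩ := LinearMap.exists_extend (m.coord s)
    obtain ⟨y, hy⟩ := PhiM_surj hχ g
    refine ⟨y, fun j => ?_⟩
    have h4 : χ ⁅y, (m j : L)⁆ = g (m j : L) := congrArg (fun g : Dual k L => g (m j : L)) hy
    have h5 : g (m j : L) = m.coord s (m j) := congrArg (fun g : M →ₗ[k] k => g (m j)) hg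
    rw [h4, h5, Basis.coord_apply, Basis.repr_self, Finsupp.single_apply]
    by_cases hsj : s = j
    · subst hsj; simp
    · rw [if_neg hsj, if_neg (fun h => hsj h.symm)]
  choose y hy using hys
  have hprod := Pool.Agent.SkM.prod_ne_zero (k := k) (E := End k V) (n := r) (r := r)
    (fun j => Y (m j : L)) (fun i j => hYcom _ (m i).2 _ (m j).2) (fun j => hYsq _ (m j).2)
    (fun s => Y (y s)) (fun s j => if s = j then 1 else 0) (fun _ _ _ => 0)
    (by
      intro s j
      rw [hY.com, hy s j, zero_smul, zero_add, Algebra.algebraMap_eq_smul_one]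
      simp)
    (fun i j => if i = j then 1 else 0) 1 one_ne_zero
    (by
      intro s i
      rw [Finset.sum_eq_single i]
      · simp
      · intro j _ hj
        rw [if_neg (fun h => hj h.symm), zero_mul]
      · intro h; exact absurd (Finset.mem_univ _) h)
  have hsum : (fun i : Fin r => ∑ j, ((if i = j then (1:k) else 0)) • Y (m j : L)) =
      fun i => Y (m i : L) := by
    funext i
    rw [Finset.sum_eq_single i]
    · rw [if_pos rfl, one_smul]
    · intro j _ hj
      rw [if_neg (fun h => hj h.symm), zero_smul]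
    · intro h; exact absurd (Finset.mem_univ _) h
  rw [hsum] at hprod
  have h6 := Pool.Agent.SkM.two_pow_le (fun j : Fin r => Y (m j : L))
    (fun i j => hYcom _ (m i).2 _ (m j).2) (fun j => hYsq _ (m j).2) hprod
  calc 2 ^ finrank k L ≤ 2 ^ (2 * r) := Nat.pow_le_pow_right (by norm_num) (by omega)
    _ = (2 ^ r) ^ 2 := by rw [← pow_mul, mul_comm]
    _ ≤ finrank k V ^ 2 := Nat.pow_le_pow_left h6 2

end

end Pool.Agent.SkF
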