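import Pool.Agent.Lib.SkF.Defs

/-!
# Module Conv: the case `a ≠ 0`

`sys_of_rep`: `Y x = a • ρ x + (a⁻¹ * χ x) • 1`.  In characteristic two `Y(x)^2 = a^2 ρ(x)^2 + a^{-2} χ(x)^2 = a^2 ρ(f x) + a^2 (a^{-2} χ(x))^2 + a^{-2} χ(x)^2 = a^2 ρ(f x)`
and `a Y(f x) + χ(f x) = a^2 ρ(f x) + χ(f x) + χ(f x) = a^2 ρ(f x)`.  Same for the commutator: `Y x Y y + Y y Y x = a^2 ρ[x,y]` (`hρ.lie`, characteristic two).
A subspace stable under all `Y x` is stable under all `ρ x`.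

`exists_ne`: `main_theorem` (SkM) for the form `(a⁻¹)^2 • χ` (nondegenerate), then `good_of_simple` (SkS/Bridge) and `sys_of_rep`.
`exists_simple`: the same from the simplicity of `u(L, χ)` with `a = 1`.
-/

set_option linter.unusedSectionVars false

namespace Pool.Agent.SkF

open Module

open Pool.Agent.SkS (Rst Frz Nondeg Rep Irr UU)

noncomputable section

variable {k L : Type} [Field k] [CharP k 2] [LieRing L] [LieAlgebra k L]

private lemma conv_two {A : Type} [AddCommGroup A] [Module k A] (z : A) : z + z = 0 := by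
  have h : (2 : k) = 0 := CharTwo.two_eq_zero
  rw [← two_smul k z, h, zero_smul]

theorem sys_of_rep {V : Type} [AddCommGroup V] [Module k V] {f : L → L} (χ : Dual k L) {a : k}
    (ha : a ≠ 0) {ρ : L →ₗ[k] End k V} (hρ : Rep f ((a⁻¹) ^ 2 • χ) ρ) (hI : Irr ρ) :
    ∃ Y : L →ₗ[k] End k V, Sys f χ a Y ∧ Irr Y := by
  let Y : L →ₗ[k] End k V :=
    a • ρ + (LinearMap.toSpanSingleton k (End k V) 1) ∘ₗ (a⁻¹ • χ : Dual k L)
  have hY : ∀ x, Y x = a • ρ x + (a⁻¹ * χ x) • (1 : End k V) := by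
    intro x
    simp [Y, LinearMap.toSpanSingleton_apply]
  have hk : ∀ c : k, c + c = 0 := fun c => CharTwo.add_self_eq_zero c
  refine ⟨Y, ⟨fun x => ?_, fun x y => ?_⟩, hI.1, fun W hW => ?_⟩
  · have h1 : Y x * Y x = (a * a) • (ρ x * ρ x) +
        ((a * (a⁻¹ * χ x)) • ρ x + (a * (a⁻¹ * χ x)) • ρ x) +
        ((a⁻¹ * χ x) * (a⁻¹ * χ x)) • (1 : End k V) := by
      rw [hY]
      simp only [add_mul, mul_add, smul_mul_assoc, mul_smul_comm, mul_one, one_mul]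
      module
    have h2 : a • Y (f x) + algebraMap k (End k V) (χ (f x)) = (a * a) • ρ (f x) := by
      rw [hY, smul_add, smul_smul, smul_smul, Algebra.algebraMap_eq_smul_one, add_assoc, ← add_smul,
        ← mul_assoc, mul_inv_cancel₀ ha, one_mul, hk, zero_smul, add_zero]
    rw [h1, h2, conv_two (k := k), add_zero, hρ.sq x, smul_add, Algebra.algebraMap_eq_smul_one,
      smul_smul, add_assoc, ← add_smul]
    have h3 : a * a * ((((a⁻¹) ^ 2 • χ) x) ^ 2) + a⁻¹ * χ x * (a⁻¹ * χ x) = 0 := by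
      rw [LinearMap.smul_apply, smul_eq_mul]
      have h4 : a * a * ((a⁻¹ ^ 2 * χ x) ^ 2) = a⁻¹ * χ x * (a⁻¹ * χ x) := by
        field_simp
      rw [h4, hk]
    rw [h3, zero_smul, add_zero]
  · have h1 : Y x * Y y + Y y * Y x = (a * a) • (ρ x * ρ y + ρ y * ρ x) +
        ((a * (a⁻¹ * χ y)) • ρ x + (a * (a⁻¹ * χ y)) • ρ x) +
        ((a * (a⁻¹ * χ x)) • ρ y + (a * (a⁻¹ * χ x)) • ρ y) +
        (((a⁻¹ * χ x) * (a⁻¹ * χ y)) • (1 : End k V) +
          ((a⁻¹ * χ x) * (a⁻¹ * χ y)) • (1 : End k V)) := by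
      rw [hY, hY]
      simp only [add_mul, mul_add, smul_mul_assoc, mul_smul_comm, mul_one, one_mul]
      module
    have h2 : a • Y ⁅x, y⁆ + algebraMap k (End k V) (χ ⁅x, y⁆) = (a * a) • ρ ⁅x, y⁆ := by
      rw [hY, smul_add, smul_smul, smul_smul, Algebra.algebraMap_eq_smul_one, add_assoc, ← add_smul,
        ← mul_assoc, mul_inv_cancel₀ ha, one_mul, hk, zero_smul, add_zero]
    have h3 : ρ x * ρ y + ρ y * ρ x = ρ ⁅x, y⁆ := by
      rw [hρ.lie x y, sub_eq_add_neg]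
      congr 1
      exact eq_neg_of_add_eq_zero_left (conv_two (k := k) _)
    rw [h1, h2, conv_two (k := k), conv_two (k := k), conv_two (k := k), add_zero, add_zero,
      add_zero, h3]
  · refine hI.2 W fun x w hw => ?_
    have h1 := hW x w hw
    rw [hY, LinearMap.add_apply, LinearMap.smul_apply, LinearMap.smul_apply, Module.End.one_apply]
      at h1
    have h2 : a • ρ x w ∈ W := by
      have := W.sub_mem h1 (W.smul_mem (a⁻¹ * χ x) hw)
      rwa [add_sub_cancel_right] at this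
    have h3 := W.smul_mem a⁻¹ h2
    rwa [smul_smul, inv_mul_cancel₀ ha, one_smul] at h3

theorem exists_simple [IsAlgClosed k] [FiniteDimensional k L] {f : L → L} (hf : Frz k f)
    (χ : Dual k L) (hs : IsSimpleRing (UU f χ)) :
    ∃ (V : Type) (_ : AddCommGroup V) (_ : Module k V) (_ : FiniteDimensional k V)
      (Y : L →ₗ[k] End k V), Sys f χ 1 Y ∧ Irr Y ∧ 2 ^ finrank k L ≤ finrank k V ^ 2 := by
  obtain ⟨V, i1, i2, i3, ρ, hρ, hI, hd⟩ := Pool.Agent.SkS.good_of_simple hf χ hs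
  have hρ' : Rep f (((1 : k)⁻¹) ^ 2 • χ) ρ := by
    rw [inv_one, one_pow, one_smul]
    exact hρ
  obtain ⟨Y, hY, hYI⟩ := sys_of_rep χ one_ne_zero hρ' hI
  exact ⟨V, i1, i2, i3, Y, hY, hYI, hd⟩

theorem exists_ne [IsAlgClosed k] [FiniteDimensional k L] {f : L → L} (hf : Frz k f)
    (χ : Dual k L) (hχ : Nondeg χ) {a : k} (ha : a ≠ 0) :
    ∃ (V : Type) (_ : AddCommGroup V) (_ : Module k V) (_ : FiniteDimensional k V)
      (Y : L →ₗ[k] End k V), Sys f χ a Y ∧ Irr Y ∧ 2 ^ finrank k L ≤ finrank k V ^ 2 := by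
  have ha2 : (a⁻¹) ^ 2 ≠ 0 := pow_ne_zero 2 (inv_ne_zero ha)
  have hnd : Nondeg ((a⁻¹) ^ 2 • χ) := by
    intro x hx
    refine hχ x fun y => ?_
    have := hx y
    rw [LinearMap.smul_apply, smul_eq_mul] at this
    exact (mul_eq_zero.1 this).resolve_left ha2
  have hs := Pool.Agent.SkM.main_theorem hf ((a⁻¹) ^ 2 • χ) hnd
  obtain ⟨V, i1, i2, i3, ρ, hρ, hI, hd⟩ := Pool.Agent.SkS.good_of_simple hf _ hs
  obtain ⟨Y, hY, hYI⟩ := sys_of_rep χ ha hρ hI
  exact ⟨V, i1, i2, i3, Y, hY, hYI, hd⟩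

end

end Pool.Agent.SkF
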