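import Pool.Agent.Lib.SkM.Main

/-!
# Definitions for the converse: Frobenius restricted Lie algebras in characteristic two

Let `L` be Frobenius (some `χ₁` has `Z_L(χ₁) = 0`), `k` algebraically closed of characteristic two.  To prove: if `u(L, χ₀)` is
simple then `Z_L(χ₀) = 0`.

Idea.  For `a, τ ∈ k` let `A(a, τ)` be the algebra generated by `Y(x)`, `x ∈ L`, with the relations
`Y(x)^2 = a Y(f x) + χ(f x)`, `Y(x) Y(y) + Y(y) Y(x) = a Y([x,y]) + χ([x,y])`, `χ = χ₀ + τ χ₁`.
For `a ≠ 0` it is `u(L, a^{-2} χ)` (`Y(x) = a (x - a^{-2} χ(x))`), for `a = 0` it is the Clifford algebra of the quadratic form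
`q(x) = χ(f x)` with polar form `χ([x,y])`.  The products of the generators in the basis of ordered monomials have structure constants which are
polynomials in `(a, τ)`, so there is a polynomial `Δ(a, τ)` (the determinant of the operators `x ↦ E_ε x E_ε'`) which does not vanish where
`A(a, τ)` is simple.  If `χ₀ + τ χ₁` is nondegenerate, `A(a, τ)` is simple for all `a` (for `a ≠ 0` by the main theorem of `SkM`, for `a = 0`
as a nondegenerate Clifford algebra), so `Δ(a, τ)` has no zero as a polynomial in `a` and does not depend on `a`.  This holds for infinitely many `τ`, so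
`Δ(1, 0) = Δ(0, 0)`.  But `Δ(1,0) ≠ 0` if `u(L, χ₀)` is simple, and `Δ(0,0) = 0` if `χ₀` is degenerate.
-/

namespace Pool.Agent.SkF

open Module

noncomputable section

/-- polynomials in `(a, τ)`, `a` the outer variable, `τ` the inner variable -/
abbrev RR (k : Type) [Field k] : Type := Polynomial (Polynomial k)

/-- evaluation at `(a, τ)` -/
def ev {k : Type} [Field k] (a τ : k) : RR k →+* k :=
  (Polynomial.evalRingHom a).comp (Polynomial.mapRingHom (Polynomial.evalRingHom τ))

variable {k L : Type} [Field k] [LieRing L] [LieAlgebra k L] {n : ℕ}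

/-- the relations of `A(a, τ)`, with `χ = χ₀ + τ χ₁` -/
structure Sys {A : Type} [Ring A] [Algebra k A] (f : L → L) (χ : Dual k L) (a : k)
    (Y : L →ₗ[k] A) : Prop where
  sq : ∀ x : L, Y x * Y x = a • Y (f x) + algebraMap k A (χ (f x))
  com : ∀ x y : L, Y x * Y y + Y y * Y x = a • Y ⁅x, y⁆ + algebraMap k A (χ ⁅x, y⁆)

/-- the product along a word -/
def wp {A : Type} [Ring A] [Algebra k A] (b : Basis (Fin n) k L) (Y : L →ₗ[k] A)
    (w : List (Fin n)) : A := (w.map (fun i => Y (b i))).prod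

/-- the increasing word of a subset -/
def wd (ε : Fin n → Fin 2) : List (Fin n) := (List.finRange n).filter (fun i => decide (ε i = 1))

/-- `p` is a universal normal form of the word `w` -/
def NF (b : Basis (Fin n) k L) (f : L → L) (χ₀ χ₁ : Dual k L) (w : List (Fin n))
    (p : (Fin n → Fin 2) → RR k) : Prop :=
  ∀ (A : Type) [Ring A] [Algebra k A] (a τ : k) (Y : L →ₗ[k] A), Sys f (χ₀ + τ • χ₁) a Y →
    wp b Y w = ∑ ε, (ev a τ (p ε)) • wp b Y (wd ε)

/-- the matrix of the operators `x ↦ E_ε x E_ε'`: rows `(ε, ε')`, columns `(α, β)`, entry the coefficient of `E_β`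
in `E_ε E_α E_ε'` -/
def PM (p : List (Fin n) → (Fin n → Fin 2) → RR k) :
    Matrix ((Fin n → Fin 2) × (Fin n → Fin 2)) ((Fin n → Fin 2) × (Fin n → Fin 2)) (RR k) :=
  Matrix.of (fun r c => p (wd r.1 ++ wd c.1 ++ wd r.2) c.2)

lemma wp_nil {A : Type} [Ring A] [Algebra k A] (b : Basis (Fin n) k L) (Y : L →ₗ[k] A) :
    wp b Y [] = 1 := by simp [wp]

lemma wp_cons {A : Type} [Ring A] [Algebra k A] (b : Basis (Fin n) k L) (Y : L →ₗ[k] A)
    (i : Fin n) (w : List (Fin n)) : wp b Y (i :: w) = Y (b i) * wp b Y w := by simp [wp]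

lemma wp_append {A : Type} [Ring A] [Algebra k A] (b : Basis (Fin n) k L) (Y : L →ₗ[k] A)
    (u w : List (Fin n)) : wp b Y (u ++ w) = wp b Y u * wp b Y w := by simp [wp]

/-- the product `E_ε E_α E_ε'` -/
lemma PM_spec {b : Basis (Fin n) k L} {f : L → L} {χ₀ χ₁ : Dual k L}
    {p : List (Fin n) → (Fin n → Fin 2) → RR k} (hp : ∀ w, NF b f χ₀ χ₁ w (p w))
    {A : Type} [Ring A] [Algebra k A] {a τ : k} {Y : L →ₗ[k] A} (hY : Sys f (χ₀ + τ • χ₁) a Y)
    (ε ε' α : Fin n → Fin 2) : wp b Y (wd ε) * wp b Y (wd α) * wp b Y (wd ε') =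
      ∑ β, (ev a τ (PM p (ε, ε') (α, β))) • wp b Y (wd β) := by
  rw [← wp_append, ← wp_append]
  exact hp _ A a τ Y hY

end

end Pool.Agent.SkF
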