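import Pool.Agent.Lib.SkF.Defs

/-!
# Module Gen: the ordered monomials form a basis of `End V`

By `burnside` (SkS/Burn.lean) `Algebra.adjoin k (range Y) = ⊤`.  The span `M` of the `wp b Y (wd ε)` contains all words `wp b Y w` (by `hp`), so it contains
`1` and is stable under left multiplication by `Y (b i)`, hence by `Y x`, hence it is a left ideal containing `1` of `adjoin = ⊤` (`Algebra.adjoin_induction`),
`M = ⊤`.  The number of elements is `2^n ≤ (finrank V)^2 = finrank (End k V)`, so they are linearly independent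
(`linearIndependent_of_top_le_span_of_card_eq_finrank` : card = finrank; card ≥ finrank because they span, `finrank_le_of_span_eq_top` or
`finrank_range_le_card`).
-/

set_option linter.unusedSectionVars false

namespace Pool.Agent.SkF

open Module

open Pool.Agent.SkS (Irr)

noncomputable section

variable {k L : Type} [Field k] [LieRing L] [LieAlgebra k L] {n : ℕ}

theorem span_of_nf {b : Basis (Fin n) k L} {f : L → L} {χ₀ χ₁ : Dual k L}
    {p : List (Fin n) → (Fin n → Fin 2) → RR k} (hp : ∀ w, NF b f χ₀ χ₁ w (p w))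
    {A : Type} [Ring A] [Algebra k A] {a τ : k} {Y : L →ₗ[k] A} (hY : Sys f (χ₀ + τ • χ₁) a Y)
    (hg : Algebra.adjoin k (Set.range Y) = ⊤) :
    Submodule.span k (Set.range (fun ε : Fin n → Fin 2 => wp b Y (wd ε))) = ⊤ := by
  set M := Submodule.span k (Set.range (fun ε : Fin n → Fin 2 => wp b Y (wd ε))) with hM
  have hw : ∀ w : List (Fin n), wp b Y w ∈ M := by
    intro w
    rw [hp w A a τ Y hY]
    exact Submodule.sum_mem _ fun ε _ => Submodule.smul_mem _ _ (Submodule.subset_span ⟨ε, rfl⟩)
  have hb : ∀ (i : Fin n) (m : A), m ∈ M → Y (b i) * m ∈ M := by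
    intro i m hm
    induction hm using Submodule.span_induction with
    | mem x hx =>
      obtain ⟨ε, rfl⟩ := hx
      have := hw (i :: wd ε)
      rwa [wp_cons] at this
    | zero => rw [mul_zero]; exact M.zero_mem
    | add x y _ _ h1 h2 => rw [mul_add]; exact M.add_mem h1 h2
    | smul c x _ h1 => rw [mul_smul_comm]; exact M.smul_mem c h1
  have hx : ∀ (x : L) (m : A), m ∈ M → Y x * m ∈ M := by
    intro x m hm
    have h1 : Y x = ∑ i, (b.repr x i) • Y (b i) := by
      conv_lhs => rw [← b.sum_repr x]
      rw [map_sum]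
      exact Finset.sum_congr rfl fun m _ => by rw [map_smul]
    rw [h1, Finset.sum_mul]
    refine Submodule.sum_mem _ fun i _ => ?_
    rw [smul_mul_assoc]
    exact M.smul_mem _ (hb i m hm)
  have hz : ∀ z ∈ Algebra.adjoin k (Set.range Y), ∀ m : A, m ∈ M → z * m ∈ M := by
    intro z hz
    induction hz using Algebra.adjoin_induction with
    | mem x hx' =>
      obtain ⟨y, rfl⟩ := hx'
      exact fun m hm => hx y m hm
    | algebraMap r =>
      intro m hm
      rw [← Algebra.smul_def]
      exact M.smul_mem r hm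
    | add x y _ _ h1 h2 =>
      intro m hm
      rw [add_mul]
      exact M.add_mem (h1 m hm) (h2 m hm)
    | mul x y _ _ h1 h2 =>
      intro m hm
      rw [mul_assoc]
      exact h1 _ (h2 m hm)
  rw [eq_top_iff]
  intro z _
  have h1 := hz z (by rw [hg]; trivial) 1 (by rw [← wp_nil b Y]; exact hw [])
  rwa [mul_one] at h1

theorem gen [IsAlgClosed k] [FiniteDimensional k L] {b : Basis (Fin n) k L} {f : L → L} {χ₀ χ₁ : Dual k L}
    {p : List (Fin n) → (Fin n → Fin 2) → RR k} (hp : ∀ w, NF b f χ₀ χ₁ w (p w))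
    {V : Type} [AddCommGroup V] [Module k V] [FiniteDimensional k V] {a τ : k}
    {Y : L →ₗ[k] End k V} (hY : Sys f (χ₀ + τ • χ₁) a Y) (hI : Irr Y)
    (hd : 2 ^ n ≤ finrank k V ^ 2) :
    LinearIndependent k (fun ε : Fin n → Fin 2 => wp b Y (wd ε)) ∧
      Submodule.span k (Set.range (fun ε : Fin n → Fin 2 => wp b Y (wd ε))) = ⊤ := by
  have hs := span_of_nf hp hY (Pool.Agent.SkS.burnside Y hI)
  refine ⟨?_, hs⟩
  have hc : Fintype.card (Fin n → Fin 2) = 2 ^ n := by simp
  have hf : finrank k (End k V) = finrank k V ^ 2 := by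
    rw [Module.finrank_linearMap, sq]
  have hle : finrank k (End k V) ≤ Fintype.card (Fin n → Fin 2) := finrank_le_of_span_eq_top hs
  refine linearIndependent_of_top_le_span_of_card_eq_finrank hs.ge ?_
  rw [hc, hf] at hle ⊢
  exact le_antisymm hd hle

end

end Pool.Agent.SkF
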