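import Pool.Agent.Lib.SkF.Defs

/-!
# Module NZ: the determinant does not vanish where the algebra is a matrix algebra

Let `e_ε = wp b Y (wd ε) ∈ End k V` be linearly independent and span `End k V`.  Suppose `ev a τ (det (PM p)) = 0`: the matrix over `k`
with entries `ev a τ (PM p _ _)` has determinant `0` (`RingHom.map_det`), so there is a vector `c ≠ 0` with `∑_{(ε,ε')} c_{ε,ε'} ev (PM p (ε,ε') (α,β)) = 0` for all
`(α, β)` (`Matrix.exists_vecMul_eq_zero_iff`).  By `PM_spec` `∑ c_{ε,ε'} e_ε e_α e_ε' = 0` for all `α`, hence `∑ c_{ε,ε'} e_ε x e_ε' = 0` for all `x ∈ End k V`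
(they span).  Take `x = v ⊗ φ` (`x w = φ w • v`, `φ ∈ Dual k V`): `∑_{ε'} φ(e_ε' w) • (∑_ε c_{ε,ε'} e_ε v) = 0` for all `v, w, φ`, so with `A_ε' = ∑_ε c_{ε,ε'} e_ε`:
`∑_{ε'} φ(e_ε' w) • A_ε' = 0` in `End k V`.  For every linear form `ψ` on `End k V`: `φ((∑_ε' ψ(A_ε') e_ε') w) = 0` for all `φ, w`, so `∑ ψ(A_ε') e_ε' = 0`, so
`ψ(A_ε') = 0`; all `ψ`: `A_ε' = 0`, so `c = 0`.  Contradiction.
-/

set_option linter.unusedSectionVars false

namespace Pool.Agent.SkF

open Module

noncomputable section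

variable {k L : Type} [Field k] [LieRing L] [LieAlgebra k L] {n : ℕ}

theorem nz {b : Basis (Fin n) k L} {f : L → L} {χ₀ χ₁ : Dual k L}
    {p : List (Fin n) → (Fin n → Fin 2) → RR k} (hp : ∀ w, NF b f χ₀ χ₁ w (p w))
    {V : Type} [AddCommGroup V] [Module k V] {a τ : k}
    {Y : L →ₗ[k] End k V} (hY : Sys f (χ₀ + τ • χ₁) a Y)
    (h1 : LinearIndependent k (fun ε : Fin n → Fin 2 => wp b Y (wd ε)))
    (h2 : Submodule.span k (Set.range (fun ε : Fin n → Fin 2 => wp b Y (wd ε))) = ⊤) :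
    ev a τ (PM p).det ≠ 0 := by
  classical
  intro hdet
  rw [RingHom.map_det] at hdet
  obtain ⟨c, hc0, hc⟩ := Matrix.exists_vecMul_eq_zero_iff.2 hdet
  apply hc0
  obtain ⟨e, he⟩ : ∃ e : (Fin n → Fin 2) → End k V, e = fun ε => wp b Y (wd ε) := ⟨_, rfl⟩
  rw [← he] at h1 h2
  have h3 : ∀ α, ∑ r : (Fin n → Fin 2) × (Fin n → Fin 2), c r • (e r.1 * e α * e r.2) = 0 := by
    intro α
    have h4 : ∀ r : (Fin n → Fin 2) × (Fin n → Fin 2), c r • (e r.1 * e α * e r.2) =
        ∑ β, (c r * ev a τ (PM p r (α, β))) • e β := by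
      intro r
      have h5 := PM_spec hp hY r.1 r.2 α
      rw [he]
      simp only
      rw [h5, Finset.smul_sum]
      exact Finset.sum_congr rfl fun β _ => by rw [smul_smul]
    rw [Finset.sum_congr rfl fun r _ => h4 r, Finset.sum_comm]
    refine Finset.sum_eq_zero fun β _ => ?_
    rw [← Finset.sum_smul]
    have h5 : ∑ r, c r * ev a τ (PM p r (α, β)) = 0 := congrFun hc (α, β)
    rw [h5, zero_smul]
  have h4 : ∀ x : End k V, ∑ r : (Fin n → Fin 2) × (Fin n → Fin 2),
      c r • (e r.1 * x * e r.2) = 0 := by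
    intro x
    have hx : x ∈ Submodule.span k (Set.range e) := by rw [h2]; exact Submodule.mem_top
    induction hx using Submodule.span_induction with
    | mem x hx =>
      obtain ⟨α, rfl⟩ := hx
      exact h3 α
    | zero => simp
    | add x y _ _ hx hy =>
      rw [← add_zero (0 : End k V)]
      nth_rewrite 1 [← hx]
      rw [← hy, ← Finset.sum_add_distrib]
      refine Finset.sum_congr rfl fun r _ => ?_
      rw [mul_add, add_mul, smul_add]
    | smul t x _ hx =>
      rw [← smul_zero t, ← hx, Finset.smul_sum]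
      refine Finset.sum_congr rfl fun r _ => ?_
      rw [mul_smul_comm, smul_mul_assoc, smul_comm]
  obtain ⟨B, hB⟩ : ∃ B : (Fin n → Fin 2) → End k V, B = fun ε' => ∑ ε, c (ε, ε') • e ε :=
    ⟨_, rfl⟩
  have h5 : ∀ (φ : Dual k V) (w : V), ∑ ε', φ (e ε' w) • B ε' = 0 := by
    intro φ w
    apply LinearMap.ext
    intro v
    have h6 := LinearMap.congr_fun (h4 (φ.smulRight v)) w
    rw [LinearMap.zero_apply] at h6 ⊢
    rw [← h6, Fintype.sum_prod_type_right]
    rw [LinearMap.sum_apply, LinearMap.sum_apply]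
    refine Finset.sum_congr rfl fun ε' _ => ?_
    rw [LinearMap.sum_apply, hB, LinearMap.smul_apply, LinearMap.sum_apply, Finset.smul_sum]
    refine Finset.sum_congr rfl fun ε _ => ?_
    simp only [LinearMap.smul_apply, Module.End.mul_apply, LinearMap.smulRight_apply, map_smul]
    rw [smul_comm]
  have h6 : ∀ (ψ : Dual k (End k V)) (ε' : Fin n → Fin 2), ψ (B ε') = 0 := by
    intro ψ
    refine Fintype.linearIndependent_iff.1 h1 (fun ε' => ψ (B ε')) ?_
    apply LinearMap.ext
    intro w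
    rw [LinearMap.zero_apply]
    rw [← Module.forall_dual_apply_eq_zero_iff k]
    intro φ
    have h7 := congrArg ψ (h5 φ w)
    rw [map_zero, map_sum] at h7
    rw [← h7, LinearMap.sum_apply, map_sum]
    refine Finset.sum_congr rfl fun ε' _ => ?_
    rw [LinearMap.smul_apply, map_smul, map_smul, smul_eq_mul, smul_eq_mul, mul_comm]
  have h7 : ∀ ε', B ε' = 0 := by
    intro ε'
    rw [← Module.forall_dual_apply_eq_zero_iff k]
    exact fun ψ => h6 ψ ε'
  funext r
  have h8 := h7 r.2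
  rw [hB] at h8
  exact Fintype.linearIndependent_iff.1 h1 (fun ε => c (ε, r.2)) h8 r.1

end

end Pool.Agent.SkF
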