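import Pool.Agent.Lib.SkF.Defs

/-!
# Module Poly: two facts on polynomials

`const_of_ne`: `P = ∑_i C_i(τ) a^i` with `C_i = P.coeff i ∈ k[τ]`.  For `τ ∈ S` the polynomial `P.map (evalRingHom τ)` in `a` has no root in the algebraically closed field `k`, so its
degree is `0` (`IsAlgClosed.exists_root`), so `C_i(τ) = 0` for `i ≥ 1` and all `τ ∈ S`; `S` is infinite, so `C_i = 0` for `i ≥ 1`
(`Polynomial.eq_zero_of_infinite_isRoot`), `P = C (C_0)` and `ev 1 0 P = C_0(0) = ev 0 0 P`.

`good_infinite`: the matrices `B₀ i j = χ₀[e_i,e_j]`, `B₁ i j = χ₁[e_i,e_j]`; a form `χ` is `Nondeg` iff the determinant of `(χ[e_i,e_j])` is nonzero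
(`Matrix.exists_vecMul_eq_zero_iff`).  `D(σ) = det (B₁ + σ B₀)` is a polynomial in `σ` with `D(0) = det B₁ ≠ 0`
(`(Matrix.of fun i j => C (B₁ i j) + X * C (B₀ i j)).det`, `RingHom.map_det`), so it has finitely many roots; for all other `σ ≠ 0` the form
`χ₁ + σ χ₀` is nondegenerate, and so is `χ₀ + σ⁻¹ χ₁ = σ⁻¹ (χ₁ + σ χ₀)`.  `σ ↦ σ⁻¹` is injective and `k` is infinite (`IsAlgClosed`).
-/

set_option linter.unusedSectionVars false

namespace Pool.Agent.SkF

open Module

open Pool.Agent.SkS (Nondeg)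

noncomputable section

variable {k L : Type} [Field k] [IsAlgClosed k] [LieRing L] [LieAlgebra k L]

theorem const_of_ne (P : RR k) (S : Set k) (hS : S.Infinite)
    (h : ∀ τ ∈ S, ∀ a : k, ev a τ P ≠ 0) : ev 1 0 P = ev 0 0 P := by
  have hev : ∀ a τ : k, ev a τ P = (P.map (Polynomial.evalRingHom τ)).eval a := fun a τ => rfl
  have hdeg : ∀ τ ∈ S, (P.map (Polynomial.evalRingHom τ)).degree = 0 := by
    intro τ hτ
    by_contra hd
    obtain ⟨a, ha⟩ := IsAlgClosed.exists_root (P.map (Polynomial.evalRingHom τ)) hd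
    exact h τ hτ a (by rw [hev]; exact ha)
  have hc : ∀ i, 1 ≤ i → P.coeff i = 0 := by
    intro i hi
    refine Polynomial.eq_zero_of_infinite_isRoot _ (hS.mono ?_)
    intro τ hτ
    have h1 := hdeg τ hτ
    have h2 : (P.map (Polynomial.evalRingHom τ)).coeff i = 0 :=
      Polynomial.coeff_eq_zero_of_degree_lt (by rw [h1]; exact_mod_cast hi)
    rw [Polynomial.coeff_map] at h2
    exact h2
  have hP : P = Polynomial.C (P.coeff 0) := by
    refine Polynomial.ext fun i => ?_
    rcases Nat.eq_zero_or_pos i with rfl | hi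
    · rw [Polynomial.coeff_C_zero]
    · rw [hc i hi, Polynomial.coeff_C, if_neg hi.ne']
  rw [hev, hev, hP, Polynomial.map_C, Polynomial.eval_C, Polynomial.eval_C]

private lemma po_sum {n : ℕ} (b : Basis (Fin n) k L) (χ : Dual k L) (v : Fin n → k) (y : L) :
    χ ⁅∑ i, v i • b i, y⁆ = ∑ i, v i * χ ⁅b i, y⁆ := by
  rw [sum_lie, map_sum]
  refine Finset.sum_congr rfl fun i _ => ?_
  rw [smul_lie, map_smul, smul_eq_mul]

private lemma po_all {n : ℕ} (b : Basis (Fin n) k L) (χ : Dual k L) (x : L)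
    (h : ∀ j, χ ⁅x, b j⁆ = 0) (y : L) : χ ⁅x, y⁆ = 0 := by
  rw [← b.sum_repr y, lie_sum, map_sum]
  refine Finset.sum_eq_zero fun i _ => ?_
  rw [lie_smul, map_smul, h i, smul_zero]

private lemma po_nd {n : ℕ} (b : Basis (Fin n) k L) (χ : Dual k L) :
    Nondeg χ ↔ (Matrix.of fun i j => χ ⁅b i, b j⁆).det ≠ 0 := by
  constructor
  · intro hn hd
    obtain ⟨v, hv0, hv⟩ := Matrix.exists_vecMul_eq_zero_iff.2 hd
    have hx : ∑ i, v i • b i = 0 := by
      refine hn _ fun y => po_all b χ _ (fun j => ?_) y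
      have h1 := congrFun hv j
      rw [po_sum]
      simpa [Matrix.vecMul, dotProduct] using h1
    apply hv0
    funext i
    exact Fintype.linearIndependent_iff.1 b.linearIndependent v hx i
  · intro hd x hx
    by_contra hx0
    apply hd
    refine Matrix.exists_vecMul_eq_zero_iff.1 ⟨fun i => b.repr x i, ?_, ?_⟩
    · intro h0
      apply hx0
      rw [← b.sum_repr x]
      refine Finset.sum_eq_zero fun i _ => ?_
      have h1 : b.repr x i = 0 := congrFun h0 i
      rw [h1, zero_smul]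
    · funext j
      have h1 := hx (b j)
      rw [← b.sum_repr x, po_sum] at h1
      simpa [Matrix.vecMul, dotProduct] using h1

theorem good_infinite [FiniteDimensional k L] (χ₀ χ₁ : Dual k L) (h : Nondeg χ₁) :
    {τ : k | Nondeg (χ₀ + τ • χ₁)}.Infinite := by
  intro hfin
  let b := Module.finBasis k L
  let D : Polynomial k := (Matrix.of fun i j => Polynomial.C (χ₁ ⁅b i, b j⁆) +
    Polynomial.X * Polynomial.C (χ₀ ⁅b i, b j⁆)).det
  have hD : ∀ σ : k, D.eval σ = (Matrix.of fun i j => (χ₁ + σ • χ₀) ⁅b i, b j⁆).det := by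
    intro σ
    change Polynomial.evalRingHom σ D = _
    rw [RingHom.map_det]
    congr 1
    ext i j
    simp only [RingHom.mapMatrix_apply, Matrix.map_apply, Matrix.of_apply,
      Polynomial.coe_evalRingHom, LinearMap.add_apply, LinearMap.smul_apply, smul_eq_mul]
    rw [Polynomial.eval_add, Polynomial.eval_mul, Polynomial.eval_C, Polynomial.eval_C,
      Polynomial.eval_X]
  have hD0 : D ≠ 0 := by
    intro h0
    have h1 := (po_nd b χ₁).1 h
    apply h1
    have h2 := hD 0
    rw [h0, Polynomial.eval_zero, zero_smul, add_zero] at h2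
    exact h2.symm
  have hroots : {σ : k | D.IsRoot σ}.Finite := Polynomial.finite_setOfPred_isRoot hD0
  have hcov : (Set.univ : Set k) ⊆ ({0} ∪ {σ : k | D.IsRoot σ}) ∪
      (fun τ : k => τ⁻¹) '' {τ : k | Nondeg (χ₀ + τ • χ₁)} := by
    intro σ _
    by_cases h0 : σ = 0
    · left; left; exact h0
    · by_cases hr : D.IsRoot σ
      · left; right; exact hr
      · right
        refine ⟨σ⁻¹, ?_, inv_inv σ⟩
        have h1 : Nondeg (χ₁ + σ • χ₀) := by
          rw [po_nd b, ← hD]
          exact hr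
        intro x hx
        refine h1 x fun y => ?_
        have h2 := hx y
        have h3 : (χ₁ + σ • χ₀) ⁅x, y⁆ = σ * (χ₀ + σ⁻¹ • χ₁) ⁅x, y⁆ := by
          simp only [LinearMap.add_apply, LinearMap.smul_apply, smul_eq_mul]
          rw [mul_add, mul_inv_cancel_left₀ h0, add_comm]
        rw [h3, h2, mul_zero]
  have hinf : (Set.univ : Set k).Infinite := Set.infinite_univ_iff.2 (IsAlgClosed.instInfinite (K := k))
  exact hinf ((((Set.finite_singleton 0).union hroots).union (hfin.image _)).subset hcov)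

end

end Pool.Agent.SkF
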