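import Pool.Agent.Lib.SkF.Gen

/-!
# Module Sim: existence of an irreducible representation

`A` is spanned by the finite family `wp b Y (wd ε)` (`span_of_nf`), so it is finite dimensional.  Take a maximal left ideal `I` of `A`
(`Ideal.exists_maximal`), `V = A ⧸ I`, `Y' x = (v ↦ Y x • v)` (`Algebra.lsmul k k V`).  Copy the proof of the private lemma `exists_simple_mod` of
`Pool/Agent/Lib/SkS/Bridge.lean` (same argument, with `Sys` in place of `Rep`).
-/

set_option linter.unusedSectionVars false

namespace Pool.Agent.SkF

open Module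

open Pool.Agent.SkS (Irr)

noncomputable section

variable {k L : Type} [Field k] [LieRing L] [LieAlgebra k L] {n : ℕ}

theorem exists_irr_of_alg {b : Basis (Fin n) k L} {f : L → L} {χ₀ χ₁ : Dual k L}
    {p : List (Fin n) → (Fin n → Fin 2) → RR k} (hp : ∀ w, NF b f χ₀ χ₁ w (p w))
    {A : Type} [Ring A] [Algebra k A] [Nontrivial A] {a τ : k} {Y : L →ₗ[k] A}
    (hY : Sys f (χ₀ + τ • χ₁) a Y) (hg : Algebra.adjoin k (Set.range Y) = ⊤) :
    ∃ (V : Type) (_ : AddCommGroup V) (_ : Module k V) (_ : FiniteDimensional k V)
      (Y' : L →ₗ[k] End k V), Sys f (χ₀ + τ • χ₁) a Y' ∧ Irr Y' := by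
  have hspan := span_of_nf hp hY hg
  have hfinA : FiniteDimensional k A := by
    refine ⟨?_⟩
    rw [← hspan]
    exact Submodule.fg_span (Set.finite_range _)
  obtain ⟨I, hI⟩ := Ideal.exists_maximal A
  have hfin : FiniteDimensional k (A ⧸ (I : Submodule A A)) :=
    Module.Finite.of_surjective ((Submodule.mkQ (I : Submodule A A)).restrictScalars k)
      (Submodule.mkQ_surjective _)
  refine ⟨A ⧸ (I : Submodule A A), inferInstance, inferInstance, hfin,
    (Algebra.lsmul k k (A ⧸ (I : Submodule A A))).toLinearMap ∘ₗ Y, ?_, ?_, ?_⟩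
  · constructor
    · intro x
      rw [LinearMap.comp_apply, LinearMap.comp_apply]
      simp only [AlgHom.toLinearMap_apply]
      rw [← map_mul, hY.sq, map_add, map_smul, AlgHom.commutes]
    · intro x y
      rw [LinearMap.comp_apply, LinearMap.comp_apply, LinearMap.comp_apply]
      simp only [AlgHom.toLinearMap_apply]
      have hxy : ∀ u v : A, Algebra.lsmul k k (A ⧸ (I : Submodule A A)) u *
          Algebra.lsmul k k (A ⧸ (I : Submodule A A)) v =
          Algebra.lsmul k k (A ⧸ (I : Submodule A A)) (u * v) := fun u v => (map_mul _ u v).symm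
      rw [hxy, hxy, ← map_add, hY.com, map_add, map_smul, AlgHom.commutes]
  · exact Submodule.Quotient.nontrivial_iff.2 hI.ne_top
  · intro W hW
    have hall : ∀ u : A, ∀ w ∈ W, u • w ∈ W := by
      intro u
      have hu : u ∈ Algebra.adjoin k (Set.range Y) := by rw [hg]; trivial
      induction hu using Algebra.adjoin_induction with
      | mem x hx =>
        obtain ⟨y, rfl⟩ := hx
        exact fun w hw => hW y w hw
      | algebraMap r =>
        intro w hw
        rw [algebraMap_smul]
        exact W.smul_mem r hw
      | add x y _ _ hx hy =>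
        intro w hw
        rw [add_smul]
        exact W.add_mem (hx w hw) (hy w hw)
      | mul x y _ _ hx hy =>
        intro w hw
        rw [mul_smul]
        exact hx _ (hy w hw)
    let W' : Submodule A (A ⧸ (I : Submodule A A)) :=
      { carrier := W
        add_mem' := fun ha hb => W.add_mem ha hb
        zero_mem' := W.zero_mem
        smul_mem' := fun u w hw => hall u w hw }
    have hsim : IsSimpleModule A (A ⧸ (I : Submodule A A)) :=
      isSimpleModule_iff_isCoatom.2 (Ideal.isMaximal_def.1 hI)
    rcases eq_bot_or_eq_top W' with h | h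
    · left
      rw [Submodule.eq_bot_iff]
      intro w hw
      have hw' : w ∈ W' := hw
      rw [h] at hw'
      exact (Submodule.mem_bot A).1 hw'
    · right
      rw [Submodule.eq_top_iff']
      intro w
      have hw' : w ∈ W' := by rw [h]; trivial
      exact hw'

end

end Pool.Agent.SkF
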