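import Pool.Agent.Lib.SkF.Defs

/-!
# Module ZZ: the determinant vanishes at `(0, 0)` if `χ₀` is degenerate

Let `z ≠ 0`, `χ₀[z,y] = 0` for all `y`, and `ζ ∈ k` with `ζ^2 = χ₀(f z)` (`IsAlgClosed.exists_pow_nat_eq` or `exists_eq_mul_self`).
For `Y` with `Sys f (χ₀ + τ χ₁) 0 Y` put `z' = Y z + ζ`.  Then `z'^2 = (χ₀ + τ χ₁)(f z) + ζ^2 = τ χ₁(f z)` (characteristic two, `2 ζ Y z = 0`) and
`z' Y(x) = Y(x) z' + τ χ₁([z,x])`.
Claim: for every word `w` there is `g : (Fin n → Fin 2) → RR k` with `z' * wp b Y w * z' = τ • ∑ ε, (ev 0 τ (g ε)) • wp b Y (wd ε)` for all `A, τ, Y` with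
`Sys f (χ₀ + τ • χ₁) 0 Y`.  Induction on `w`: `[]`: `z'^2 = τ χ₁(f z)` and `wd 0 = []`.  `j :: w`:
`z' Y_j W z' = Y_j (z' W z') + τ χ₁([z,e_j]) W z'`, and `Y_j * wp (wd ε) = wp (j :: wd ε)`, `W z' = ∑_i z_i wp (w ++ [i]) + ζ wp w` have normal forms by `hp`.
Let `c_∅ = ζ`, `c_{i} = z_i` (`b.repr z i`) and `c_ε = 0` otherwise, so `z' = ∑_ε c_ε wp b Y (wd ε)`, `c ≠ 0` because `z ≠ 0`
(index `ε = Pi.single i 1` for the word `[i]`, `ε = 0` for `[]`).
For `τ ∈ S` the `wp b Y (wd β)` are linearly independent, so comparing `z' E_α z' = ∑_{ε,ε'} c_ε c_ε' E_ε E_α E_ε'` (`PM_spec`) with the claim: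
`∑_{ε,ε'} c_ε c_ε' ev 0 τ (PM p (ε,ε') (α,β)) = τ * ev 0 τ (g_α β)` for all `τ ∈ S`.  Both sides are polynomials in `τ` (`ev 0 τ P = (P.coeff 0).eval τ`) which agree at infinitely many
points (`Polynomial.eq_of_infinite_eval_eq`), so they agree at `τ = 0`: the nonzero vector `(c_ε c_ε')` is in the left kernel of the matrix `ev 0 0 (PM p)`, so its
determinant vanishes (`Matrix.exists_vecMul_eq_zero_iff`, `RingHom.map_det`).
-/

set_option linter.unusedSectionVars false

namespace Pool.Agent.SkF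

open Module

noncomputable section

section aux

variable {k L : Type} [Field k] [LieRing L] [LieAlgebra k L] {n : ℕ}

private lemma ev_zero_eq (τ : k) (P : RR k) : ev 0 τ P = (P.coeff 0).eval τ := by
  unfold ev
  rw [RingHom.comp_apply, Polynomial.coe_evalRingHom, ← Polynomial.coeff_zero_eq_eval_zero,
    Polynomial.coe_mapRingHom, Polynomial.coeff_map, Polynomial.coe_evalRingHom]

private lemma ev_CC (a τ c : k) : ev a τ (Polynomial.C (Polynomial.C c)) = c := by
  unfold ev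
  rw [RingHom.comp_apply, Polynomial.coe_mapRingHom, Polynomial.map_C, Polynomial.coe_evalRingHom,
    Polynomial.eval_C, Polynomial.coe_evalRingHom, Polynomial.eval_C]

private lemma wd_zero : wd (0 : Fin n → Fin 2) = [] := by
  unfold wd
  rw [List.filter_eq_nil_iff]
  intro a _
  simp

private lemma wd_single (i : Fin n) : wd (Pi.single i (1 : Fin 2)) = [i] := by
  unfold wd
  have h1 : (List.finRange n).filter (fun j => decide ((Pi.single i (1 : Fin 2) : Fin n → Fin 2) j = 1)) =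
      (List.finRange n).filter (fun j => j == i) := by
    refine List.filter_congr fun j _ => ?_
    by_cases h : j = i
    · subst h; simp
    · simp [h]
  rw [h1, List.filter_beq, List.count_eq_one_of_mem (List.nodup_finRange n) (List.mem_finRange i)]
  rfl

end aux

variable {k L : Type} [Field k] [CharP k 2] [IsAlgClosed k] [LieRing L] [LieAlgebra k L] {n : ℕ}

/-- `Y z` in terms of the basis -/
private lemma Y_repr {A : Type} [Ring A] [Algebra k A] (b : Basis (Fin n) k L) (Y : L →ₗ[k] A)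
    (z : L) : Y z = ∑ i, (b.repr z i) • Y (b i) := by
  conv_lhs => rw [← b.sum_repr z]
  rw [map_sum]
  exact Finset.sum_congr rfl fun i _ => by rw [map_smul]

private lemma claim {b : Basis (Fin n) k L} {f : L → L} {χ₀ χ₁ : Dual k L}
    {p : List (Fin n) → (Fin n → Fin 2) → RR k} (hp : ∀ w, NF b f χ₀ χ₁ w (p w))
    (z : L) (hB : ∀ y : L, χ₀ ⁅z, y⁆ = 0) (ζ : k) (hζ : ζ ^ 2 = χ₀ (f z)) (w : List (Fin n)) :
    ∃ g : (Fin n → Fin 2) → RR k, ∀ (A : Type) [Ring A] [Algebra k A] (τ : k) (Y : L →ₗ[k] A),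
      Sys f (χ₀ + τ • χ₁) 0 Y →
      (Y z + ζ • (1 : A)) * wp b Y w * (Y z + ζ • (1 : A)) =
        τ • ∑ ε, (ev 0 τ (g ε)) • wp b Y (wd ε) := by
  induction w with
  | nil =>
    refine ⟨fun ε => if ε = 0 then Polynomial.C (Polynomial.C (χ₁ (f z))) else 0, ?_⟩
    intro A _ _ τ Y hY
    have hA2 : ∀ x : A, x + x = 0 := by
      intro x
      rw [← two_smul k x, CharTwo.two_eq_zero, zero_smul]
    rw [Finset.sum_eq_single 0]
    · show _ = τ • (ev 0 τ) (if (0 : Fin n → Fin 2) = 0 then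
        Polynomial.C (Polynomial.C (χ₁ (f z))) else 0) • wp b Y (wd 0)
      rw [if_pos rfl, ev_CC, wd_zero, wp_nil, mul_one]
      have h1 := hY.sq z
      rw [zero_smul, zero_add, Algebra.algebraMap_eq_smul_one] at h1
      have h2 : (Y z + ζ • (1 : A)) * (Y z + ζ • (1 : A)) =
          Y z * Y z + (ζ • Y z + ζ • Y z) + (ζ ^ 2) • (1 : A) := by
        rw [add_mul, mul_add, mul_add, smul_mul_assoc, smul_mul_assoc, mul_smul_comm, mul_smul_comm,
          mul_one, one_mul, smul_smul, one_mul, pow_two]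
        abel
      rw [h2, hA2, add_zero, h1, hζ, ← add_smul]
      have h3 : (χ₀ + τ • χ₁) (f z) + χ₀ (f z) = τ * χ₁ (f z) := by
        rw [LinearMap.add_apply, LinearMap.smul_apply, smul_eq_mul, add_comm (χ₀ (f z)), add_assoc,
          CharTwo.add_self_eq_zero, add_zero]
      rw [h3, smul_smul]
    · intro ε _ hε
      show (ev 0 τ) (if ε = 0 then Polynomial.C (Polynomial.C (χ₁ (f z))) else 0) • _ = _
      rw [if_neg hε, map_zero, zero_smul]
    · intro h; exact absurd (Finset.mem_univ _) h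
  | cons j w ih =>
    obtain ⟨g, hg⟩ := ih
    refine ⟨fun β => (∑ ε, g ε * p (j :: wd ε) β) +
      Polynomial.C (Polynomial.C (χ₁ ⁅z, b j⁆)) *
        ((∑ i, Polynomial.C (Polynomial.C (b.repr z i)) * p (w ++ [i]) β) +
          Polynomial.C (Polynomial.C ζ) * p w β), ?_⟩
    intro A _ _ τ Y hY
    have hA2 : ∀ x : A, x + x = 0 := by
      intro x
      rw [← two_smul k x, CharTwo.two_eq_zero, zero_smul]
    have hcom : (Y z + ζ • (1 : A)) * Y (b j) = Y (b j) * (Y z + ζ • (1 : A)) +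
        (τ * χ₁ ⁅z, b j⁆) • (1 : A) := by
      have h1 := hY.com z (b j)
      have h4 : (χ₀ + τ • χ₁) ⁅z, b j⁆ = τ * χ₁ ⁅z, b j⁆ := by
        rw [LinearMap.add_apply, LinearMap.smul_apply, smul_eq_mul, hB, zero_add]
      rw [zero_smul, zero_add, Algebra.algebraMap_eq_smul_one, h4] at h1
      have h5 : Y z * Y (b j) = Y (b j) * Y z + (τ * χ₁ ⁅z, b j⁆) • (1 : A) := by
        rw [← h1]
        have h6 := hA2 (Y (b j) * Y z)
        have h7 : Y (b j) * Y z + (Y z * Y (b j) + Y (b j) * Y z) =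
            Y z * Y (b j) + (Y (b j) * Y z + Y (b j) * Y z) := by abel
        rw [h7, h6, add_zero]
      rw [add_mul, h5, mul_add, smul_mul_assoc, mul_smul_comm, one_mul, mul_one]
      abel
    have hNFw : wp b Y w = ∑ β, (ev 0 τ (p w β)) • wp b Y (wd β) := hp w A 0 τ Y hY
    have hW : wp b Y w * (Y z + ζ • (1 : A)) =
        ∑ β, (ev 0 τ ((∑ i, Polynomial.C (Polynomial.C (b.repr z i)) * p (w ++ [i]) β) +
          Polynomial.C (Polynomial.C ζ) * p w β)) • wp b Y (wd β) := by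
      have h8 : wp b Y w * (Y z + ζ • (1 : A)) =
          (∑ i, (b.repr z i) • wp b Y (w ++ [i])) + ζ • wp b Y w := by
        rw [mul_add, mul_smul_comm, mul_one, Y_repr b Y z, Finset.mul_sum]
        congr 1
        refine Finset.sum_congr rfl fun i _ => ?_
        rw [mul_smul_comm, wp_append, wp_cons, wp_nil, mul_one]
      have h9 : ∀ i, wp b Y (w ++ [i]) = ∑ β, (ev 0 τ (p (w ++ [i]) β)) • wp b Y (wd β) :=
        fun i => hp (w ++ [i]) A 0 τ Y hY
      rw [h8]
      have h10 : (∑ i, (b.repr z i) • wp b Y (w ++ [i])) =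
          ∑ β, (∑ i, (b.repr z i) * ev 0 τ (p (w ++ [i]) β)) • wp b Y (wd β) := by
        rw [Finset.sum_congr rfl fun i _ => by rw [h9 i, Finset.smul_sum], Finset.sum_comm]
        refine Finset.sum_congr rfl fun β _ => ?_
        rw [Finset.sum_smul]
        refine Finset.sum_congr rfl fun i _ => ?_
        rw [smul_smul]
      have h11 : ζ • wp b Y w = ∑ β, (ζ * ev 0 τ (p w β)) • wp b Y (wd β) := by
        conv_lhs => rw [hNFw]
        rw [Finset.smul_sum]
        refine Finset.sum_congr rfl fun β _ => ?_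
        rw [smul_smul]
      rw [h10, h11, ← Finset.sum_add_distrib]
      refine Finset.sum_congr rfl fun β _ => ?_
      rw [← add_smul, map_add, map_sum, map_mul, ev_CC]
      congr 2
      refine Finset.sum_congr rfl fun i _ => ?_
      rw [map_mul, ev_CC]
    have h12 : (Y z + ζ • (1 : A)) * wp b Y (j :: w) * (Y z + ζ • (1 : A)) =
        Y (b j) * ((Y z + ζ • (1 : A)) * wp b Y w * (Y z + ζ • (1 : A))) +
          (τ * χ₁ ⁅z, b j⁆) • (wp b Y w * (Y z + ζ • (1 : A))) := by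
      rw [wp_cons, ← mul_assoc, hcom, add_mul, add_mul, smul_mul_assoc, one_mul, smul_mul_assoc]
      simp only [mul_assoc]
    have h13 : Y (b j) * (τ • ∑ ε, (ev 0 τ (g ε)) • wp b Y (wd ε)) =
        τ • ∑ β, (ev 0 τ (∑ ε, g ε * p (j :: wd ε) β)) • wp b Y (wd β) := by
      rw [mul_smul_comm, Finset.mul_sum]
      congr 1
      have h14 : ∀ ε, Y (b j) * (ev 0 τ (g ε) • wp b Y (wd ε)) =
          ∑ β, (ev 0 τ (g ε) * ev 0 τ (p (j :: wd ε) β)) • wp b Y (wd β) := by
        intro ε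
        rw [mul_smul_comm, ← wp_cons, hp (j :: wd ε) A 0 τ Y hY, Finset.smul_sum]
        refine Finset.sum_congr rfl fun β _ => ?_
        rw [smul_smul]
      rw [Finset.sum_congr rfl fun ε _ => h14 ε, Finset.sum_comm]
      refine Finset.sum_congr rfl fun β _ => ?_
      rw [map_sum, Finset.sum_smul]
      refine Finset.sum_congr rfl fun ε _ => ?_
      rw [map_mul]
    rw [h12, hg A τ Y hY, h13, hW, ← smul_smul, ← smul_add]
    congr 1
    rw [Finset.smul_sum, ← Finset.sum_add_distrib]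
    refine Finset.sum_congr rfl fun β _ => ?_
    show _ = (ev 0 τ) ((∑ ε, g ε * p (j :: wd ε) β) +
      Polynomial.C (Polynomial.C (χ₁ ⁅z, b j⁆)) *
        ((∑ i, Polynomial.C (Polynomial.C (b.repr z i)) * p (w ++ [i]) β) +
          Polynomial.C (Polynomial.C ζ) * p w β)) • wp b Y (wd β)
    rw [smul_smul, ← add_smul]
    have h15 : ∀ P Q R : RR k, ev 0 τ (P + Polynomial.C (Polynomial.C (χ₁ ⁅z, b j⁆)) * Q) =
        ev 0 τ P + χ₁ ⁅z, b j⁆ * ev 0 τ Q := by
      intro P Q R
      rw [map_add, map_mul, ev_CC]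
    rw [h15 _ _ 0]

theorem zz {b : Basis (Fin n) k L} {f : L → L} {χ₀ χ₁ : Dual k L}
    {p : List (Fin n) → (Fin n → Fin 2) → RR k} (hp : ∀ w, NF b f χ₀ χ₁ w (p w))
    (z : L) (hz : z ≠ 0) (hB : ∀ y : L, χ₀ ⁅z, y⁆ = 0) (S : Set k) (hS : S.Infinite)
    (h : ∀ τ ∈ S, ∃ (V : Type) (_ : AddCommGroup V) (_ : Module k V) (Y : L →ₗ[k] End k V),
      Sys f (χ₀ + τ • χ₁) 0 Y ∧ LinearIndependent k (fun ε : Fin n → Fin 2 => wp b Y (wd ε))) :
    ev 0 0 (PM p).det = 0 := by
  obtain ⟨ζ, hζ⟩ := IsAlgClosed.exists_pow_nat_eq (χ₀ (f z)) (n := 2) (by norm_num)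
  choose g hg using fun w => claim hp z hB ζ hζ w
  set c : (Fin n → Fin 2) → k := fun ε => (if ε = 0 then ζ else 0) +
    ∑ i, if ε = Pi.single i (1 : Fin 2) then b.repr z i else 0 with hc
  have hsingle : ∀ i j : Fin n, (Pi.single i (1 : Fin 2) : Fin n → Fin 2) = Pi.single j 1 → i = j := by
    intro i j hij
    by_contra hne
    have h1 := congrFun hij i
    rw [Pi.single_eq_same, Pi.single_eq_of_ne hne] at h1
    exact one_ne_zero h1
  have hc0 : ∃ ε, c ε ≠ 0 := by
    have h1 : ∃ i, b.repr z i ≠ 0 := by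
      by_contra hcon
      push Not at hcon
      apply hz
      rw [← b.sum_repr z]
      exact Finset.sum_eq_zero fun i _ => by rw [hcon i, zero_smul]
    obtain ⟨i, hi⟩ := h1
    refine ⟨Pi.single i 1, ?_⟩
    have h2 : (Pi.single i (1 : Fin 2) : Fin n → Fin 2) ≠ 0 := by
      intro h3
      have h4 := congrFun h3 i
      rw [Pi.single_eq_same, Pi.zero_apply] at h4
      exact one_ne_zero h4
    rw [hc]
    show (if (Pi.single i (1 : Fin 2) : Fin n → Fin 2) = 0 then ζ else 0) + (∑ i', if (Pi.single i (1 : Fin 2) : Fin n → Fin 2) = Pi.single i' (1 : Fin 2) then b.repr z i' else 0) ≠ 0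
    rw [if_neg h2, zero_add, Finset.sum_eq_single i]
    · rw [if_pos rfl]; exact hi
    · intro j _ hj
      rw [if_neg (fun h => hj (hsingle i j h).symm)]
    · intro h; exact absurd (Finset.mem_univ _) h
  have hz' : ∀ {A : Type} [Ring A] [Algebra k A] (Y : L →ₗ[k] A),
      ∑ ε, c ε • wp b Y (wd ε) = Y z + ζ • (1 : A) := by
    intro A _ _ Y
    have h1 : ∀ ε, c ε • wp b Y (wd ε) = (if ε = 0 then ζ else 0) • wp b Y (wd ε) +
        ∑ i, (if ε = Pi.single i (1 : Fin 2) then b.repr z i else 0) • wp b Y (wd ε) := by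
      intro ε
      rw [hc]
      show ((if ε = 0 then ζ else 0) + ∑ i, if ε = Pi.single i (1 : Fin 2) then b.repr z i else 0) • _ = _
      rw [add_smul, Finset.sum_smul]
    rw [Finset.sum_congr rfl fun ε _ => h1 ε, Finset.sum_add_distrib, Finset.sum_comm]
    have h2 : ∑ ε : Fin n → Fin 2, (if ε = 0 then ζ else 0) • wp b Y (wd ε) = ζ • (1 : A) := by
      rw [Finset.sum_eq_single 0]
      · rw [if_pos rfl, wd_zero, wp_nil]
      · intro ε _ hε
        rw [if_neg hε, zero_smul]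
      · intro h; exact absurd (Finset.mem_univ _) h
    have h3 : ∀ i, ∑ ε : Fin n → Fin 2, (if ε = Pi.single i (1 : Fin 2) then b.repr z i else 0) •
        wp b Y (wd ε) = b.repr z i • Y (b i) := by
      intro i
      rw [Finset.sum_eq_single (Pi.single i 1)]
      · rw [if_pos rfl, wd_single, wp_cons, wp_nil, mul_one]
      · intro ε _ hε
        rw [if_neg hε, zero_smul]
      · intro h; exact absurd (Finset.mem_univ _) h
    rw [h2, Finset.sum_congr rfl fun i _ => h3 i, ← Y_repr, add_comm]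
  -- the identity for all `τ ∈ S`
  have hkey : ∀ τ ∈ S, ∀ α β : Fin n → Fin 2,
      ∑ r : (Fin n → Fin 2) × (Fin n → Fin 2), (c r.1 * c r.2) * ev 0 τ (PM p r (α, β)) =
        τ * ev 0 τ (g (wd α) β) := by
    intro τ hτ α β
    obtain ⟨V, _, _, Y, hY, hLI⟩ := h τ hτ
    have h1 := hg (wd α) (End k V) τ Y hY
    rw [← hz' Y] at h1
    have h2 : (∑ ε, c ε • wp b Y (wd ε)) * wp b Y (wd α) * (∑ ε, c ε • wp b Y (wd ε)) =
        ∑ β, (∑ r : (Fin n → Fin 2) × (Fin n → Fin 2),
          (c r.1 * c r.2) * ev 0 τ (PM p r (α, β))) • wp b Y (wd β) := by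
      rw [Finset.sum_mul, Finset.sum_mul_sum, ← Finset.sum_product', Finset.univ_product_univ]
      have h3 : ∀ r : (Fin n → Fin 2) × (Fin n → Fin 2),
          c r.1 • wp b Y (wd r.1) * wp b Y (wd α) * c r.2 • wp b Y (wd r.2) =
          ∑ β, ((c r.1 * c r.2) * ev 0 τ (PM p r (α, β))) • wp b Y (wd β) := by
        intro r
        rw [smul_mul_assoc, smul_mul_assoc, mul_smul_comm, smul_smul, PM_spec hp hY,
          Finset.smul_sum]
        refine Finset.sum_congr rfl fun β _ => ?_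
        rw [smul_smul]
      rw [Finset.sum_congr rfl fun r _ => h3 r, Finset.sum_comm]
      refine Finset.sum_congr rfl fun β _ => ?_
      rw [Finset.sum_smul]
    rw [h2, Finset.smul_sum] at h1
    have h4 : ∑ β, ((∑ r : (Fin n → Fin 2) × (Fin n → Fin 2),
          (c r.1 * c r.2) * ev 0 τ (PM p r (α, β))) - τ * ev 0 τ (g (wd α) β)) •
          wp b Y (wd β) = 0 := by
      have h5 : ∀ β, ((∑ r : (Fin n → Fin 2) × (Fin n → Fin 2),
          (c r.1 * c r.2) * ev 0 τ (PM p r (α, β))) - τ * ev 0 τ (g (wd α) β)) •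
          wp b Y (wd β) = (∑ r : (Fin n → Fin 2) × (Fin n → Fin 2),
          (c r.1 * c r.2) * ev 0 τ (PM p r (α, β))) • wp b Y (wd β) -
          τ • ev 0 τ (g (wd α) β) • wp b Y (wd β) := by
        intro β
        rw [sub_smul, smul_smul]
      rw [Finset.sum_congr rfl fun β _ => h5 β, Finset.sum_sub_distrib, h1, sub_self]
    exact sub_eq_zero.1 ((Fintype.linearIndependent_iff.1 hLI) _ h4 β)
  -- specialise `τ = 0`
  have hzero : ∀ α β : Fin n → Fin 2,
      ∑ r : (Fin n → Fin 2) × (Fin n → Fin 2), (c r.1 * c r.2) * ev 0 0 (PM p r (α, β)) = 0 := by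
    intro α β
    have h1 : (∑ r : (Fin n → Fin 2) × (Fin n → Fin 2),
        Polynomial.C (c r.1 * c r.2) * (PM p r (α, β)).coeff 0) =
        Polynomial.X * (g (wd α) β).coeff 0 := by
      refine Polynomial.eq_of_infinite_eval_eq _ _ (hS.mono fun τ hτ => ?_)
      have h2 := hkey τ hτ α β
      show Polynomial.eval τ _ = Polynomial.eval τ _
      rw [Polynomial.eval_finsetSum, Polynomial.eval_mul, Polynomial.eval_X, ← ev_zero_eq, ← h2]
      refine Finset.sum_congr rfl fun r _ => ?_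
      rw [Polynomial.eval_mul, Polynomial.eval_C, ← ev_zero_eq]
    have h3 := congrArg (Polynomial.eval 0) h1
    rw [Polynomial.eval_finsetSum, Polynomial.eval_mul, Polynomial.eval_X, zero_mul] at h3
    refine Eq.trans (Finset.sum_congr rfl fun r _ => ?_) h3
    rw [Polynomial.eval_mul, Polynomial.eval_C, ← ev_zero_eq]
  rw [RingHom.map_det]
  refine Matrix.exists_vecMul_eq_zero_iff.1 ⟨fun r => c r.1 * c r.2, ?_, ?_⟩
  · obtain ⟨ε, hε⟩ := hc0
    intro h1
    have h2 := congrFun h1 (ε, ε)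
    exact mul_ne_zero hε hε h2
  · funext s
    exact hzero s.1 s.2

end

end Pool.Agent.SkF
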