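import Pool.Agent.Lib.SkF.Red
import Pool.Agent.Lib.SkF.Gen
import Pool.Agent.Lib.SkF.NZ
import Pool.Agent.Lib.SkF.ZZ
import Pool.Agent.Lib.SkF.Poly
import Pool.Agent.Lib.SkF.Conv
import Pool.Agent.Lib.SkF.ClA
import Pool.Agent.Lib.SkF.Sim
import Pool.Agent.Lib.SkF.Clb

/-!
# Main theorem: for a Frobenius restricted Lie algebra in characteristic two, `u(L, χ)` is simple iff `Z_L(χ) = 0`
-/

set_option linter.unusedSectionVars false

namespace Pool.Agent.SkF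

open Module

open Pool.Agent.SkS (Rst Frz Nondeg Rep Irr UU rst_of_frz)

variable {k L : Type} [Field k] [CharP k 2] [IsAlgClosed k] [LieRing L] [LieAlgebra k L]
  [FiniteDimensional k L]

theorem exists_zero {f : L → L} (hf : Rst k f) (χ : Dual k L) (hχ : Nondeg χ) :
    ∃ (V : Type) (_ : AddCommGroup V) (_ : Module k V) (_ : FiniteDimensional k V)
      (Y : L →ₗ[k] End k V), Sys f χ 0 Y ∧ Irr Y ∧ 2 ^ finrank k L ≤ finrank k V ^ 2 := by
  obtain ⟨A, i1, i2, i3, Y, hY, hg⟩ := exists_alg hf χ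
  obtain ⟨p, hp⟩ := red (Module.finBasis k L) f χ (0 : Dual k L)
  have hY' : Sys f (χ + (0 : k) • (0 : Dual k L)) 0 Y := by rw [smul_zero, add_zero]; exact hY
  obtain ⟨V, j1, j2, j3, Y', hY1, hI⟩ := exists_irr_of_alg hp hY' hg
  rw [smul_zero, add_zero] at hY1
  have hn : Nontrivial V := hI.1
  exact ⟨V, j1, j2, j3, Y', hY1, hI, clb hf χ hχ hY1⟩

theorem exists_all {f : L → L} (hf : Frz k f) (χ : Dual k L) (hχ : Nondeg χ) (a : k) :
    ∃ (V : Type) (_ : AddCommGroup V) (_ : Module k V) (_ : FiniteDimensional k V)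
      (Y : L →ₗ[k] End k V), Sys f χ a Y ∧ Irr Y ∧ 2 ^ finrank k L ≤ finrank k V ^ 2 := by
  by_cases ha : a = 0
  · rw [ha]
    exact exists_zero (rst_of_frz hf) χ hχ
  · exact exists_ne hf χ hχ ha

theorem nondeg_of_simple {f : L → L} (hf : Frz k f) (χ₁ : Dual k L) (h₁ : Nondeg χ₁)
    (χ₀ : Dual k L) (hs : IsSimpleRing (UU f χ₀)) : Nondeg χ₀ := by
  intro z hB
  by_contra hz
  let b := Module.finBasis k L
  obtain ⟨p, hp⟩ := red b f χ₀ χ₁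
  have hS := good_infinite χ₀ χ₁ h₁
  have h1 : ∀ τ ∈ {τ : k | Nondeg (χ₀ + τ • χ₁)}, ∀ a : k, ev a τ (PM p).det ≠ 0 := by
    intro τ hτ a
    obtain ⟨V, i1, i2, i3, Y, hY, hI, hd⟩ := exists_all hf (χ₀ + τ • χ₁) hτ a
    obtain ⟨h2, h3⟩ := gen hp hY hI hd
    exact nz hp hY h2 h3
  have h2 : ev 0 0 (PM p).det = 0 := by
    apply zz hp z hz hB _ hS
    intro τ hτ
    obtain ⟨V, i1, i2, i3, Y, hY, hI, hd⟩ := exists_all hf (χ₀ + τ • χ₁) hτ 0
    obtain ⟨h2, h3⟩ := gen hp hY hI hd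
    exact ⟨V, i1, i2, Y, hY, h2⟩
  have h3 := const_of_ne (PM p).det _ hS h1
  obtain ⟨V, i1, i2, i3, Y, hY, hI, hd⟩ := exists_simple hf χ₀ hs
  have hY' : Sys f (χ₀ + (0 : k) • χ₁) 1 Y := by rw [zero_smul, add_zero]; exact hY
  obtain ⟨h4, h5⟩ := gen hp hY' hI hd
  exact nz hp hY' h4 h5 (h3.trans h2)

theorem iff_frobenius {f : L → L} (hf : Frz k f) (χ₁ : Dual k L) (h₁ : Nondeg χ₁) (χ : Dual k L) :
    IsSimpleRing (UU f χ) ↔ Nondeg χ :=
  ⟨nondeg_of_simple hf χ₁ h₁ χ, Pool.Agent.SkM.main_theorem hf χ⟩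

end Pool.Agent.SkF
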