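import Pool.Agent.Lib.SkF.Defs

/-!
# Module Red: universal normal forms

`red`: every word has a universal normal form.  Write `Red w : ∃ p, NF b f χ₀ χ₁ w p`.
(0) closure: if `wp b Y w = ∑ (finite) c_t(a,τ) wp b Y w_t` for all `A, a, τ, Y` with `Sys`, with fixed polynomials `c_t` and `Red w_t` for all `t`, then
`Red w` (add the normal forms, `ev a τ` is a ring homomorphism).  The polynomials needed: `ev a τ (Polynomial.X) = a`,
`ev a τ (C (C c)) = c`, `ev a τ (C (C c + X * C d)) = c + τ d`.
(1) Prove by induction on `N`: all words of length `≤ N` are `Red`.  Let `length w = N + 1`.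
(2) swap: for `w = u ++ i :: j :: v`: `Y_i Y_j = - Y_j Y_i + a ∑_m c^m_{ij} Y_m + χ([e_i,e_j])` (`c^m_{ij} = b.repr [e_i,e_j] m`), so
`wp w = - wp (u ++ j :: i :: v) + a ∑_m c^m wp (u ++ m :: v) + χ([e_i,e_j]) wp (u ++ v)`, the last words are shorter.
So `Red (u ++ j :: i :: v) → Red w`.
(3) by induction on `List.Perm` (with an arbitrary prefix `u`): if `w ~ w'`, length `N+1`, then `Red w' → Red w`.
(4) if `w` has a repeated letter `i` then `w ~ i :: i :: w''` and `Y_i Y_i = a ∑_m φ^m_i Y_m + χ(f e_i)`, shorter words.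
(5) if `w` has no repeated letter then `w ~ wd ε` with `ε i = 1` iff `i ∈ w`, and `Red (wd ε)` with
`p = Pi.single ε 1`.
-/

set_option linter.unusedSectionVars false

namespace Pool.Agent.SkF

open Module

noncomputable section

variable {k L : Type} [Field k] [CharP k 2] [LieRing L] [LieAlgebra k L] {n : ℕ}

private def Rd (b : Basis (Fin n) k L) (f : L → L) (χ₀ χ₁ : Dual k L) (w : List (Fin n)) : Prop :=
  ∃ p, NF b f χ₀ χ₁ w p

private lemma Rd.comb {b : Basis (Fin n) k L} {f : L → L} {χ₀ χ₁ : Dual k L} {ι : Type} [Fintype ι]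
    (c : ι → RR k) (W : ι → List (Fin n)) (hW : ∀ t, Rd b f χ₀ χ₁ (W t)) {w : List (Fin n)}
    (h : ∀ (A : Type) [Ring A] [Algebra k A] (a τ : k) (Y : L →ₗ[k] A),
      Sys f (χ₀ + τ • χ₁) a Y → wp b Y w = ∑ t, (ev a τ (c t)) • wp b Y (W t)) :
    Rd b f χ₀ χ₁ w := by
  choose p hp using hW
  refine ⟨fun ε => ∑ t, c t * p t ε, ?_⟩
  intro A _ _ a τ Y hY
  rw [h A a τ Y hY]
  simp only [map_sum, map_mul, Finset.sum_smul]
  rw [Finset.sum_comm]
  refine Finset.sum_congr rfl fun t _ => ?_
  rw [hp t A a τ Y hY, Finset.smul_sum]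
  exact Finset.sum_congr rfl fun ε _ => by rw [smul_smul]

private lemma ev_X (a τ : k) : ev a τ (Polynomial.X) = a := by simp [ev]

private lemma ev_C (a τ c d : k) :
    ev a τ (Polynomial.C (Polynomial.C c + Polynomial.X * Polynomial.C d)) = c + τ * d := by
  simp [ev]
  ring

private lemma ev_XC (a τ c : k) :
    ev a τ (Polynomial.X * Polynomial.C (Polynomial.C c)) = a * c := by
  simp [ev]
  ring

private lemma Y_expand {A : Type} [Ring A] [Algebra k A] (b : Basis (Fin n) k L)
    (Y : L →ₗ[k] A) (x : L) : Y x = ∑ m, (b.repr x m) • Y (b m) := by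
  conv_lhs => rw [← b.sum_repr x]
  rw [map_sum]
  exact Finset.sum_congr rfl fun m _ => by rw [map_smul]

/-- replacing two adjacent letters -/
private lemma Rd.two {b : Basis (Fin n) k L} {f : L → L} {χ₀ χ₁ : Dual k L} {u v : List (Fin n)}
    {i j : Fin n} (s : RR k) (z : L) (w' : List (Fin n))
    (hrel : ∀ (A : Type) [Ring A] [Algebra k A] (a τ : k) (Y : L →ₗ[k] A),
      Sys f (χ₀ + τ • χ₁) a Y → Y (b i) * Y (b j) = ev a τ s • wp b Y w' +
        (a • Y z + algebraMap k A ((χ₀ + τ • χ₁) z)))
    (h1 : Rd b f χ₀ χ₁ (u ++ (w' ++ v))) (h2 : Rd b f χ₀ χ₁ (u ++ v))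
    (h3 : ∀ m, Rd b f χ₀ χ₁ (u ++ m :: v)) :
    Rd b f χ₀ χ₁ (u ++ i :: j :: v) := by
  refine Rd.comb (ι := Option (Option (Fin n)))
    (fun t => match t with
      | none => s
      | some none => Polynomial.C (Polynomial.C (χ₀ z) + Polynomial.X * Polynomial.C (χ₁ z))
      | some (some m) => Polynomial.X * Polynomial.C (Polynomial.C (b.repr z m)))
    (fun t => match t with
      | none => u ++ (w' ++ v)
      | some none => u ++ v
      | some (some m) => u ++ m :: v) ?_ ?_
  · rintro (_ | _ | m)
    · exact h1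
    · exact h2
    · exact h3 m
  · intro A _ _ a τ Y hY
    rw [Fintype.sum_option, Fintype.sum_option]
    simp only [ev_C, ev_XC]
    have e1 : wp b Y (u ++ i :: j :: v) = wp b Y u * ((Y (b i) * Y (b j)) * wp b Y v) := by
      rw [wp_append, wp_cons, wp_cons, mul_assoc]
    rw [e1, hrel A a τ Y hY, Y_expand b Y z]
    have e2 : ∀ m, wp b Y (u ++ m :: v) = wp b Y u * (Y (b m) * wp b Y v) := by
      intro m
      rw [wp_append, wp_cons]
    simp only [e2, wp_append]
    rw [add_mul, add_mul, mul_add, mul_add]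
    congr 1
    · rw [smul_mul_assoc, mul_smul_comm]
    · rw [add_comm]
      congr 1
      · rw [← Algebra.smul_def, mul_smul_comm]
        simp [LinearMap.add_apply, LinearMap.smul_apply]
      · rw [Finset.smul_sum, Finset.sum_mul, Finset.mul_sum]
        refine Finset.sum_congr rfl fun m _ => ?_
        rw [smul_smul, smul_mul_assoc, mul_smul_comm]

private lemma Rd.perm {b : Basis (Fin n) k L} {f : L → L} {χ₀ χ₁ : Dual k L} {N : ℕ}
    (hN : ∀ w : List (Fin n), w.length ≤ N → Rd b f χ₀ χ₁ w) {w w' : List (Fin n)}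
    (h : w.Perm w') : ∀ u : List (Fin n), (u ++ w).length = N + 1 →
      Rd b f χ₀ χ₁ (u ++ w') → Rd b f χ₀ χ₁ (u ++ w) := by
  induction h with
  | nil => exact fun u _ h => h
  | cons x _ ih =>
    intro u hl h
    have := ih (u ++ [x]) (by simpa [Nat.add_assoc, Nat.add_comm] using hl) (by simpa using h)
    simpa using this
  | swap x y l =>
    intro u hl h
    simp only [List.length_append, List.length_cons] at hl
    refine Rd.two (-1) ⁅b y, b x⁆ [x, y] ?_ (by simpa using h) (hN _ ?_) (fun m => hN _ ?_)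
    · intro A _ _ a τ Y hY
      have h1 := hY.com (b y) (b x)
      have h2 : wp b Y [x, y] = Y (b x) * Y (b y) := by simp [wp]
      rw [h2, map_neg, map_one, neg_one_smul, ← h1]
      abel
    · simp only [List.length_append]
      omega
    · simp only [List.length_append, List.length_cons]
      omega
  | trans h1 h2 ih1 ih2 =>
    intro u hl h
    refine ih1 u hl (ih2 u ?_ h)
    rw [← hl, List.length_append, List.length_append, h1.length_eq]

private lemma wd_nodup (ε : Fin n → Fin 2) : (wd ε).Nodup :=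
  (List.nodup_finRange n).filter _

private lemma mem_wd {ε : Fin n → Fin 2} {i : Fin n} : i ∈ wd ε ↔ ε i = 1 := by
  simp [wd]

private lemma Rd.wd {b : Basis (Fin n) k L} {f : L → L} {χ₀ χ₁ : Dual k L} (ε : Fin n → Fin 2) :
    Rd b f χ₀ χ₁ (wd ε) := by
  classical
  refine ⟨Pi.single ε 1, ?_⟩
  intro A _ _ a τ Y _
  rw [Finset.sum_eq_single ε]
  · simp
  · intro ε' _ hne
    rw [Pi.single_eq_of_ne hne]
    simp
  · simp

private lemma rd_all (b : Basis (Fin n) k L) (f : L → L) (χ₀ χ₁ : Dual k L) (N : ℕ) :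
    ∀ w : List (Fin n), w.length ≤ N → Rd b f χ₀ χ₁ w := by
  classical
  induction N with
  | zero =>
    intro w hw
    have h0 : w = SkF.wd (fun _ : Fin n => (0 : Fin 2)) := by
      rw [List.length_eq_zero_iff.1 (Nat.le_zero.1 hw)]
      simp [SkF.wd]
    rw [h0]
    exact Rd.wd _
  | succ N ih =>
    intro w hw
    rcases Nat.lt_or_ge w.length (N + 1) with h | h
    · exact ih w (by omega)
    · have hl : w.length = N + 1 := le_antisymm hw h
      by_cases hnd : w.Nodup
      · have hp : w.Perm (SkF.wd (fun i => if i ∈ w then (1 : Fin 2) else 0)) := by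
          rw [List.perm_ext_iff_of_nodup hnd (wd_nodup _)]
          intro i
          rw [mem_wd]
          by_cases hi : i ∈ w <;> simp [hi]
        have := Rd.perm ih hp [] (by simpa using hl) (by simpa using Rd.wd _)
        simpa using this
      · obtain ⟨x, hx⟩ := List.exists_duplicate_iff_not_nodup.2 hnd
        obtain ⟨v, hv⟩ := (List.duplicate_iff_sublist.1 hx).exists_perm_append
        have hl2 : N + 1 = v.length + 2 := by
          rw [← hl, hv.length_eq]
          simp only [List.length_append, List.length_cons, List.length_nil]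
          omega
        have h1 : Rd b f χ₀ χ₁ ([] ++ x :: x :: v) := by
          refine Rd.two 0 (f (b x)) [] ?_ ?_ ?_ ?_
          · intro A _ _ a τ Y hY
            rw [map_zero, zero_smul, zero_add]
            exact hY.sq (b x)
          · exact ih _ (by simp; omega)
          · exact ih _ (by simp; omega)
          · intro m
            exact ih _ (by simp; omega)
        have := Rd.perm ih hv [] (by simpa using hl) (by simpa using h1)
        simpa using this

theorem red (b : Basis (Fin n) k L) (f : L → L) (χ₀ χ₁ : Dual k L) :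
    ∃ p : List (Fin n) → (Fin n → Fin 2) → RR k, ∀ w, NF b f χ₀ χ₁ w (p w) := by
  have h : ∀ w : List (Fin n), Rd b f χ₀ χ₁ w := fun w => rd_all b f χ₀ χ₁ w.length w le_rfl
  choose p hp using h
  exact ⟨p, hp⟩

end

end Pool.Agent.SkF
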